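import Pool.Agent.Helper18_X2.Stmts

/-!
# AWC, part X2: modules FIX, FXP (helper85)
-/

noncomputable section

namespace Pool.Agent.PP.X2.H85

open Pool.Agent.Helper51_AWC Pool.Agent.Helper79_WRA Pool.Agent.PP Pool.Agent.PP.X2

/-- `FIX`. -/
theorem fix : FixStmt := by
  intro ℓ _ G _ _ P Z hP hZ hPZ x hx
  let α : Type := {g : G // x⁻¹ * g ∈ Z}
  let act : MulAction P α :=
    { smul := fun p g => ⟨(p : G) * g.1 * (p : G)⁻¹, by
        have h1 := hx p p.2
        have h2 := (Subgroup.mem_normalizer_iff.1 (hPZ p.2) (x⁻¹ * g.1)).1 g.2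
        have h3 := Z.mul_mem h1 h2
        have e : x⁻¹ * ((p : G) * x * (p : G)⁻¹) * ((p : G) * (x⁻¹ * g.1) * (p : G)⁻¹) =
            x⁻¹ * ((p : G) * g.1 * (p : G)⁻¹) := by group
        rw [e] at h3
        exact h3⟩
      one_smul := by
        intro g
        apply Subtype.ext
        change ((1 : P) : G) * g.1 * ((1 : P) : G)⁻¹ = g.1
        simp
      mul_smul := by
        intro p q g
        apply Subtype.ext
        change ((p * q : P) : G) * g.1 * ((p * q : P) : G)⁻¹ =
          (p : G) * ((q : G) * g.1 * (q : G)⁻¹) * (p : G)⁻¹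
        rw [Subgroup.coe_mul]
        group }
  have hcard : Nat.card α = Nat.card Z := by
    apply Nat.card_congr
    exact
      { toFun := fun g => ⟨x⁻¹ * g.1, g.2⟩
        invFun := fun z => ⟨x * z.1, by simp⟩
        left_inv := fun g => by apply Subtype.ext; simp
        right_inv := fun z => by apply Subtype.ext; simp }
  obtain ⟨g, hg⟩ := hP.nonempty_fixed_point_of_prime_not_dvd_card α (by rw [hcard]; exact hZ)
  refine ⟨x⁻¹ * g.1, g.2, ?_⟩
  rw [mul_inv_cancel_left, Subgroup.mem_centralizer_iff]
  intro p hp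
  have h1 : (⟨p, hp⟩ : P) • g = g := hg ⟨p, hp⟩
  have h2 : p * g.1 * p⁻¹ = g.1 := congrArg Subtype.val h1
  rw [mul_inv_eq_iff_eq_mul] at h2
  exact h2

/-- Elements of the join of two commuting subgroups. -/
theorem mem_sup_comm {G : Type} [Group G] {A B : Subgroup G}
    (h : ∀ x ∈ A, ∀ y ∈ B, x * y = y * x) {x : G} (hx : x ∈ A ⊔ B) :
    ∃ a ∈ A, ∃ b ∈ B, x = a * b := by
  let C : Subgroup G :=
    { carrier := {x | ∃ a ∈ A, ∃ b ∈ B, x = a * b}
      one_mem' := ⟨1, A.one_mem, 1, B.one_mem, by simp⟩
      mul_mem' := by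
        rintro _ _ ⟨a, ha, b, hb, rfl⟩ ⟨a', ha', b', hb', rfl⟩
        refine ⟨a * a', A.mul_mem ha ha', b * b', B.mul_mem hb hb', ?_⟩
        rw [mul_assoc a b, ← mul_assoc b a', ← h a' ha' b hb]
        simp only [mul_assoc]
      inv_mem' := by
        rintro _ ⟨a, ha, b, hb, rfl⟩
        refine ⟨a⁻¹, A.inv_mem ha, b⁻¹, B.inv_mem hb, ?_⟩
        rw [mul_inv_rev, h _ (A.inv_mem ha) _ (B.inv_mem hb)] }
  have hle : A ⊔ B ≤ C := by
    apply sup_le
    · intro a ha
      exact ⟨a, ha, 1, B.one_mem, by simp⟩
    · intro b hb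
      exact ⟨1, A.one_mem, b, hb, by simp⟩
  exact hle hx

/-- An element commuting with all the factors commutes with their join. -/
theorem comm_iSup {G : Type} [Group G] {J : Type} {s : Set J} {E : J → Subgroup G} {y : G}
    (h : ∀ i ∈ s, ∀ x ∈ E i, x * y = y * x) : ∀ x ∈ (⨆ i ∈ s, E i : Subgroup G), x * y = y * x := by
  have hle : (⨆ i ∈ s, E i : Subgroup G) ≤ Subgroup.centralizer {y} := by
    refine iSup₂_le fun i hi x hx => ?_
    rw [Subgroup.mem_centralizer_iff]
    intro z hz
    rw [Set.mem_singleton_iff.1 hz]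
    exact (h i hi x hx).symm
  intro x hx
  have h1 := hle hx
  rw [Subgroup.mem_centralizer_iff] at h1
  exact (h1 y (Set.mem_singleton y)).symm

/-- `FXP`. -/
theorem fxp (hfix : FixStmt) : FxpStmt := by
  intro ℓ _ G _ _ P hP J _ E hcomm hnorm hcard
  classical
  cases nonempty_fintype J
  apply le_antisymm
  · have key : ∀ s : Finset J, ∀ x ∈ Subgroup.centralizer (P : Set G),
        x ∈ (⨆ j ∈ (s : Set J), E j : Subgroup G) →
        x ∈ ⨆ j, (Subgroup.centralizer (P : Set G) ⊓ E j) := by
      intro s
      induction s using Finset.induction_on with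
      | empty =>
        intro x _ hx
        simp only [Finset.coe_empty, Set.mem_empty_iff_false, iSup_false, iSup_bot,
          Subgroup.mem_bot] at hx
        rw [hx]
        exact Subgroup.one_mem _
      | insert j s hj ih =>
        intro x hxP hx
        rw [Finset.coe_insert, iSup_insert, sup_comm] at hx
        set E1 : Subgroup G := ⨆ i ∈ (s : Set J), E i with hE1
        have hc12 : ∀ a ∈ E1, ∀ b ∈ E j, a * b = b * a := by
          intro a ha b hb
          refine comm_iSup (s := (s : Set J)) (E := E) ?_ a ha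
          intro i hi y hy
          refine hcomm i j ?_ y hy b hb
          rintro rfl
          exact hj hi
        obtain ⟨x1, hx1, x2, hx2, hx12⟩ := mem_sup_comm hc12 hx
        have hn1 : P ≤ Subgroup.normalizer (E1 : Set G) := by
          intro p hp
          rw [Subgroup.mem_normalizer_iff_map_conj_eq, hE1]
          rw [Subgroup.map_iSup]
          congr 1
          funext i
          rw [Subgroup.map_iSup]
          congr 1
          funext hi
          exact Subgroup.mem_normalizer_iff_map_conj_eq.1 (hnorm i hp)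
        have hn2 := hnorm j
        have hnZ : P ≤ Subgroup.normalizer ((E1 ⊓ E j : Subgroup G) : Set G) := by
          intro p hp
          rw [Subgroup.mem_normalizer_iff]
          intro h
          rw [Subgroup.mem_inf, Subgroup.mem_inf, Subgroup.mem_normalizer_iff.1 (hn1 hp) h,
            Subgroup.mem_normalizer_iff.1 (hn2 hp) h]
        have hZle : E1 ⊓ E j ≤ Subgroup.centralizer ((⨆ j, E j : Subgroup G) : Set G) ⊓
            (⨆ j, E j) := by
          intro z hz
          obtain ⟨hz1, hz2⟩ := Subgroup.mem_inf.1 hz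
          refine Subgroup.mem_inf.2 ⟨?_, Subgroup.mem_iSup_of_mem j hz2⟩
          rw [Subgroup.mem_centralizer_iff]
          intro y hy
          have hy' : y ∈ (⨆ i ∈ (Set.univ : Set J), E i : Subgroup G) := by simpa using hy
          refine comm_iSup (s := (Set.univ : Set J)) (E := E) ?_ y hy'
          intro i _ w hw
          by_cases hij : i = j
          · subst hij
            exact (hc12 z hz1 w hw).symm
          · exact hcomm i j hij w hw z hz2
        have hZc : ¬ ℓ ∣ Nat.card (E1 ⊓ E j : Subgroup G) := by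
          intro h
          exact hcard (h.trans (Subgroup.card_dvd_of_le hZle))
        obtain ⟨z, hz, hxz⟩ := hfix ℓ G P (E1 ⊓ E j) hP hZc hnZ x1 (by
          intro p hp
          have h1 : p * x1 * p⁻¹ ∈ E1 := (Subgroup.mem_normalizer_iff.1 (hn1 hp) x1).1 hx1
          have h2 : p * x2 * p⁻¹ ∈ E j := (Subgroup.mem_normalizer_iff.1 (hn2 hp) x2).1 hx2
          have h3 : p * x * p⁻¹ = x := by
            rw [mul_inv_eq_iff_eq_mul]
            exact (Subgroup.mem_centralizer_iff.1 hxP p hp)
          have h4 : (p * x1 * p⁻¹) * (p * x2 * p⁻¹) = x1 * x2 := by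
            rw [← hx12]
            have e : (p * x1 * p⁻¹) * (p * x2 * p⁻¹) = p * (x1 * x2) * p⁻¹ := by group
            rw [e, ← hx12, h3]
          have h5 : x1⁻¹ * (p * x1 * p⁻¹) = x2 * (p * x2 * p⁻¹)⁻¹ := by
            rw [eq_mul_inv_iff_mul_eq, mul_assoc, h4]
            group
          refine Subgroup.mem_inf.2 ⟨E1.mul_mem (E1.inv_mem hx1) h1, ?_⟩
          rw [h5]
          exact (E j).mul_mem hx2 ((E j).inv_mem h2))
        obtain ⟨hz1, hz2⟩ := Subgroup.mem_inf.1 hz
        have h6 : z⁻¹ * x2 ∈ Subgroup.centralizer (P : Set G) := by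
          have e : z⁻¹ * x2 = (x1 * z)⁻¹ * x := by
            rw [hx12]
            group
          rw [e]
          exact Subgroup.mul_mem _ (Subgroup.inv_mem _ hxz) hxP
        have e : x = (x1 * z) * (z⁻¹ * x2) := by
          rw [hx12]
          group
        rw [e]
        apply Subgroup.mul_mem
        · exact ih _ hxz (E1.mul_mem hx1 hz1)
        · refine Subgroup.mem_iSup_of_mem j ?_
          exact Subgroup.mem_inf.2 ⟨h6, (E j).mul_mem ((E j).inv_mem hz2) hx2⟩
    intro x hx
    obtain ⟨h1, h2⟩ := Subgroup.mem_inf.1 hx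
    exact key Finset.univ x h1 (by simpa using h2)
  · apply iSup_le
    intro j
    exact inf_le_inf_left _ (le_iSup E j)

end Pool.Agent.PP.X2.H85
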