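import Pool.Agent.Helper18_X2.Stmts

/-!
# AWC, part X2: module FXI (helper85)
-/

noncomputable section

namespace Pool.Agent.PP.X2.H85

open Pool.Agent.Helper51_AWC Pool.Agent.Helper79_WRA Pool.Agent.PP Pool.Agent.PP.X2

/-- A nontrivial normal subgroup of a finite `p`-group contains a nontrivial central element. -/
theorem exists_central {p : ℕ} [Fact p.Prime] {G : Type} [Group G] [Finite G] (hG : IsPGroup p G)
    (N : Subgroup G) [N.Normal] (hN : N ≠ ⊥) : ∃ b ∈ N, b ≠ 1 ∧ ∀ g : G, g * b * g⁻¹ = b := by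
  have hdvd : p ∣ Nat.card N := by
    obtain ⟨n, hn⟩ := IsPGroup.iff_card.1 (hG.to_subgroup N)
    have h1 : Nat.card N ≠ 1 := by
      intro h
      exact hN (Subgroup.card_eq_one.1 h)
    rw [hn] at h1 ⊢
    apply dvd_pow_self
    rintro rfl
    exact h1 (pow_zero p)
  let act : MulAction G N := MulAction.compHom N (MulAut.conjNormal (H := N))
  have hsm : ∀ (g : G) (n : N), ((g • n : N) : G) = g * n * g⁻¹ := fun g n => rfl
  have h1 : (1 : N) ∈ MulAction.fixedPoints G N := by
    intro g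
    apply Subtype.ext
    rw [hsm]
    simp
  obtain ⟨b, hb, hne⟩ := hG.exists_fixed_point_of_prime_dvd_card_of_fixed_point N hdvd h1
  refine ⟨b, b.2, ?_, ?_⟩
  · intro h
    exact hne (Subtype.ext h.symm)
  · intro g
    have h2 := congrArg (fun x : N => (x : G)) (hb g)
    exact (hsm g b).symm.trans h2

/-- `FXI`. -/
theorem fxi : FxiStmt := by
  intro ℓ _ S _ _ hS Q hQ hne
  obtain ⟨hsim, a0, b0, hab⟩ := hS
  have hcen : ∀ a : S, (MulAut.conj a = 1) → a = 1 := by
    intro a ha
    have h1 : a ∈ Subgroup.center S := by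
      rw [Subgroup.mem_center_iff]
      intro g
      have h2 : (MulAut.conj a) g = g := by rw [ha]; rfl
      rw [MulAut.conj_apply, mul_inv_eq_iff_eq_mul] at h2
      exact h2.symm
    rcases hsim.eq_bot_or_eq_top_of_normal (Subgroup.center S) inferInstance with h | h
    · rw [h] at h1
      exact h1
    · exfalso
      have h2 : a0 ∈ Subgroup.center S := by rw [h]; trivial
      exact hab (Subgroup.mem_center_iff.1 h2 b0).symm
  have hR : ((MulAut.conj (G := S)).range.subgroupOf Q).Normal := by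
    refine ⟨fun n hn g => ?_⟩
    rw [Subgroup.mem_subgroupOf] at hn ⊢
    obtain ⟨a, ha⟩ := hn
    refine ⟨(g : MulAut S) a, ?_⟩
    ext x
    have h1 : ((g * n * g⁻¹ : Q) : MulAut S) x = (g : MulAut S) ((n : MulAut S) ((g : MulAut S)⁻¹ x)) :=
      rfl
    rw [h1, ← ha, MulAut.conj_apply, MulAut.conj_apply, map_mul, map_mul, map_inv]
    congr 2
    exact ((g : MulAut S).apply_symm_apply x).symm
  have hne2 : (MulAut.conj (G := S)).range.subgroupOf Q ≠ ⊥ := by
    intro h
    apply hne
    rw [eq_bot_iff]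
    intro x hx
    obtain ⟨h1, h2⟩ := Subgroup.mem_inf.1 hx
    have h3 : (⟨x, h1⟩ : Q) ∈ (MulAut.conj (G := S)).range.subgroupOf Q := h2
    rw [h, Subgroup.mem_bot] at h3
    have h4 := congrArg Subtype.val h3
    exact h4
  have : Finite (MulAut S) := inferInstance
  obtain ⟨b, hb, hb1, hbc⟩ := exists_central hQ _ hne2
  rw [Subgroup.mem_subgroupOf] at hb
  obtain ⟨a, ha⟩ := hb
  have ha1 : a ≠ 1 := by
    rintro rfl
    apply hb1
    apply Subtype.ext
    rw [← ha, map_one]
    rfl
  have hfix : ∀ q ∈ Q, q a = a := by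
    intro q hq
    have h1 := congrArg Subtype.val (hbc ⟨q, hq⟩)
    have h2 : q * MulAut.conj a * q⁻¹ = MulAut.conj a := by
      rw [ha]
      exact h1
    have h3 : MulAut.conj (q a * a⁻¹) = 1 := by
      have h4 : MulAut.conj (q a) = q * MulAut.conj a * q⁻¹ := by
        ext x
        have e : (q * MulAut.conj a * q⁻¹ : MulAut S) x = q (MulAut.conj a (q⁻¹ x)) := rfl
        rw [e, MulAut.conj_apply, MulAut.conj_apply, map_mul, map_mul, map_inv]
        congr 2
        exact (q.apply_symm_apply x).symm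
      rw [map_mul, map_inv, h4, h2, mul_inv_cancel]
    have h5 := hcen _ h3
    exact mul_inv_eq_one.1 h5
  have haC : a ∈ fixN Q := hfix
  set a' : fixN Q := ⟨a, haC⟩ with ha'
  have hcent : ∀ x : fixN Q, a' * x = x * a' := by
    intro x
    apply Subtype.ext
    have h1 : (b : MulAut S) x = x := x.2 b b.2
    rw [← ha, MulAut.conj_apply, mul_inv_eq_iff_eq_mul] at h1
    exact h1
  have hord : ∃ n : ℕ, a' ^ ℓ ^ n = 1 := by
    obtain ⟨n, hn⟩ := hQ b
    refine ⟨n, ?_⟩
    apply Subtype.ext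
    apply hcen
    have h1 := congrArg Subtype.val hn
    have h2 : (b : MulAut S) ^ ℓ ^ n = 1 := h1
    rw [← ha, ← map_pow] at h2
    exact h2
  intro hbot
  have hmem : a' ∈ opCore ℓ (fixN Q) := by
    have h1 : Subgroup.zpowers a' ≤ opCore ℓ (fixN Q) := by
      apply le_sSup
      refine ⟨⟨fun n hn g => ?_⟩, ?_⟩
      · obtain ⟨k, rfl⟩ := hn
        have h2 : Commute g (a' ^ k) := ((show Commute a' g from hcent g).zpow_left k).symm
        have h3 : g * (a' ^ k) * g⁻¹ = a' ^ k := by rw [h2.eq, mul_inv_cancel_right]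
        rw [h3]
        exact ⟨k, rfl⟩
      · rintro ⟨x, k, rfl⟩
        obtain ⟨n, hn⟩ := hord
        refine ⟨n, ?_⟩
        apply Subtype.ext
        change (a' ^ k) ^ ℓ ^ n = 1
        rw [← zpow_natCast, ← zpow_mul, mul_comm, zpow_mul, zpow_natCast, hn, one_zpow]
    exact h1 (Subgroup.mem_zpowers a')
  rw [hbot, Subgroup.mem_bot] at hmem
  exact ha1 (congrArg Subtype.val hmem)

end Pool.Agent.PP.X2.H85
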