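import Pool.Agent.Helper18_X2.Stmts

/-!
# AWC, part X2: module MDA (helper85)
-/

noncomputable section

namespace Pool.Agent.PP.X2.H85

open Pool.Agent.Helper51_AWC Pool.Agent.Helper79_WRA Pool.Agent.PP Pool.Agent.PP.X2

/-- `MDA`. -/
theorem mda : MdaStmt := by
  intro H S _ _ hS K B f hf hK hc x hx
  obtain ⟨hsim, a, b, hab⟩ := hS
  have hn : (B.subgroupOf K).Normal := by
    refine ⟨fun n hn g => ?_⟩
    rw [Subgroup.mem_subgroupOf] at hn ⊢
    have h1 := (Subgroup.mem_normalizer_iff.1 (hK g.2) (n : H)).1 hn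
    simpa using h1
  have hn2 : ((B.subgroupOf K).map f).Normal := hn.map f hf
  rcases hsim.eq_bot_or_eq_top_of_normal _ hn2 with h | h
  · have h1 : f x ∈ (B.subgroupOf K).map f := ⟨x, hx, rfl⟩
    rw [h] at h1
    exact h1
  · exfalso
    apply hab
    have ha : a ∈ (B.subgroupOf K).map f := by rw [h]; trivial
    have hb : b ∈ (B.subgroupOf K).map f := by rw [h]; trivial
    obtain ⟨u, hu, rfl⟩ := ha
    obtain ⟨v, hv, rfl⟩ := hb
    exact hc u v hu hv

end Pool.Agent.PP.X2.H85
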